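import Pool.Agent.Helper81.AD.Pl
import Pool.Agent.Helper37.DK2.Nst

/-! THE TANGENTS OF A POLYNOMIAL LEAF OF THE EXACT CALCULUS: the leaf of `exists_leaf` (Helper81/AD/Pl.lean) has the
tangents `eval Y (pderiv a (Phi j))`. -/

set_option autoImplicit false

namespace Pool.Agent.Helper97.GR

open Finset Filter Topology Matrix Pool.Agent.Helper69.RK Pool.Agent.Helper31.EC Pool.Agent.Helper31.EC.Sp
open Pool.Agent.Helper40.EL Pool.Agent.Helper89.LX Pool.Agent.Helper3.LF Pool.Agent.Helper84.MT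
open Pool.Agent.Helper81.AD Pool.Agent.Helper37.DK2

noncomputable section

variable {S : Sp} {M e : ℕ}

/-! ### the leaf of an equal point -/

section
variable {E : ℕ → ℕ} {Q Q' : S.VV M} (l : Leaf S Q E) {A : ∀ k, (S.F k).Ω → Prop} (hA : Typ A) (hE : ∀ D, D ≤ E D)
    (hQ : ∃ K : ℕ → ℝ, S.Sub K ∧ ∀ᶠ k in UF, ∀ ω, (S.F k).μ ω ≠ 0 → A k ω → ∀ i,
      |Q'.v k ω i - Q.v k ω i| ≤ K k * S.dl 1 k)

theorem toQ_F_pos {k : ℕ} {ω : (S.F k).Ω} (h : A k ω) : (l.toQ hA hE hQ).F k ω = l.F k ω := if_pos h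

theorem toQ_F_neg {k : ℕ} {ω : (S.F k).Ω} (h : ¬ A k ω) :
    (l.toQ hA hE hQ).F k ω = fun _ j => rnd (S.dl 1 k) (Q'.v k ω j) := if_neg h

theorem toQ_Y_pos {k : ℕ} {ω : (S.F k).Ω} (h : A k ω) : (l.toQ hA hE hQ).Y.v k ω = l.Y.v k ω := if_pos h

/-- the tangents of the leaf of an equal point, on the event -/
theorem ltan_toQ {k : ℕ} {ω : (S.F k).Ω} (h : A k ω) (a : Fin l.e) (j : Fin M) :
    ltan (l.toQ hA hE hQ) k ω a j = ltan l k ω a j := by
  unfold ltan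
  rw [toQ_F_pos l hA hE hQ h, toQ_Y_pos l hA hE hQ h]
  rfl

/-- the tangents of the leaf of an equal point are zero off the event -/
theorem ltan_toQ_neg {k : ℕ} {ω : (S.F k).Ω} (h : ¬ A k ω) (a : Fin (l.toQ hA hE hQ).e) (j : Fin M) :
    ltan (l.toQ hA hE hQ) k ω a j = 0 := by
  unfold ltan
  rw [toQ_F_neg l hA hE hQ h]
  exact deriv_const _ _

end

/-! ### derivatives of the literal polynomials -/

section
variable (Φ : Fin M → MvPolynomial (Fin e) (QS S))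

theorem eval_pderiv_lG (k : ℕ) (ω : (S.F k).Ω) (j : Fin M) (a : Fin e) (y : Fin e → ℝ) :
    MvPolynomial.eval y (MvPolynomial.pderiv a (lG Φ k ω j)) =
      ∑ s ∈ (Φ j).support.attach, rnd (S.dl 1 k) (cu Φ k ω j s) * (s.1 a : ℝ) *
        ∏ i, y i ^ (s.1 - Finsupp.single a 1 : Fin e →₀ ℕ) i := by
  unfold lG
  rw [map_sum, map_sum]
  apply Finset.sum_congr rfl
  intro s _
  rw [MvPolynomial.pderiv_monomial, MvPolynomial.eval_monomial, Finsupp.prod_fintype _ _ (fun i => pow_zero _)]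

/-- the derivative of a constant coordinate is zero -/
theorem eval_pderiv_lG_C {j : Fin M} {c : QS S} (hj : Φ j = MvPolynomial.C c) (k : ℕ) (ω : (S.F k).Ω) (a : Fin e)
    (y : Fin e → ℝ) : MvPolynomial.eval y (MvPolynomial.pderiv a (lG Φ k ω j)) = 0 := by
  classical
  rw [eval_pderiv_lG]
  apply Finset.sum_eq_zero
  intro s _
  obtain ⟨v, hv⟩ := s
  have h1 : v = 0 := by
    have h2 := MvPolynomial.mem_support_iff.mp hv
    rw [hj, MvPolynomial.coeff_C] at h2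
    by_contra h3
    exact h2 (if_neg fun h => h3 h.symm)
  have h4 : (v a : ℝ) = 0 := by rw [h1, Finsupp.zero_apply, Nat.cast_zero]
  show rnd (S.dl 1 k) (cu Φ k ω j ⟨v, hv⟩) * (v a : ℝ) * _ = 0
  rw [h4, mul_zero, zero_mul]

theorem eval_pderiv_mk (y : Fin e → TR S) (j : Fin M) (a : Fin e) :
    MvPolynomial.eval (fun i => QS.mk (y i)) (MvPolynomial.pderiv a (Φ j)) =
      QS.mk (∑ s ∈ (Φ j).support.attach, QS.rep ((Φ j).coeff s) * (s.1 a : TR S) *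
        ∏ i, y i ^ (s.1 - Finsupp.single a 1 : Fin e →₀ ℕ) i) := by
  have e1 : MvPolynomial.pderiv a (Φ j) = ∑ s ∈ (Φ j).support,
      MvPolynomial.monomial (s - Finsupp.single a 1) ((Φ j).coeff s * (s a : QS S)) := by
    conv_lhs => rw [(Φ j).as_sum]
    rw [map_sum]
    apply Finset.sum_congr rfl
    intro s _
    rw [MvPolynomial.pderiv_monomial]
  rw [e1, map_sum, map_sum, ← Finset.sum_attach]
  apply Finset.sum_congr rfl
  intro s _
  rw [MvPolynomial.eval_monomial, Finsupp.prod_fintype _ _ (fun i => pow_zero _)]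
  simp only [map_mul, map_prod, map_pow, QS.mk_rep, map_natCast]

/-- THE DERIVATIVES: the derivative of the literal polynomial at the parameter is the value of the derivative -/
theorem pderiv_Ag (y : Fin e → TR S) {g : ℕ} (hd : ∀ j, (Φ j).totalDegree ≤ g) (j : Fin M) (a : Fin e) (f : TR S)
    (hf : QS.mk f = MvPolynomial.eval (fun i => QS.mk (y i)) (MvPolynomial.pderiv a (Φ j))) :
    ∃ (A : ∀ k, (S.F k).Ω → Prop) (K : ℕ → ℝ), Typ A ∧ S.Sub K ∧ ∀ᶠ k in UF, ∀ ω, (S.F k).μ ω ≠ 0 → A k ω →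
      |MvPolynomial.eval ((TR.vec y).v k ω) (MvPolynomial.pderiv a (lG Φ k ω j)) - TR.ev f k ω| ≤
        K k * S.dl 1 k := by
  classical
  rw [eval_pderiv_mk, QS.mk_eq] at hf
  obtain ⟨A, K, hA, hK, hh⟩ := hf
  obtain ⟨L, hL, hY⟩ := (TR.vec y).bd
  refine ⟨A, fun k => (Φ j).support.attach.card * (g * (L k + 1) ^ g) + K k, hA,
    ((S.Sub_const (Nat.cast_nonneg _)).mul ((S.Sub_const (Nat.cast_nonneg _)).mul
      (Sub_pow' (hL.add (S.Sub_const zero_le_one)) _))).add hK, ?_⟩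
  filter_upwards [hh, hY, hL.1] with k hk h1 hL0 ω hω hAω
  have hk2 := hk ω hω hAω
  have e3 : TR.ev (∑ s ∈ (Φ j).support.attach, QS.rep ((Φ j).coeff s) * (s.1 a : TR S) *
      ∏ i, y i ^ (s.1 - Finsupp.single a 1 : Fin e →₀ ℕ) i) k ω =
      ∑ s ∈ (Φ j).support.attach, cu Φ k ω j s * (s.1 a : ℝ) *
        ∏ i, (TR.ev (y i) k ω) ^ (s.1 - Finsupp.single a 1 : Fin e →₀ ℕ) i := by
    rw [← TR.evh_apply, map_sum]
    apply Finset.sum_congr rfl
    intro s _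
    rw [map_mul, map_mul, map_prod, cu_eq, map_natCast]
    simp only [map_pow, TR.evh_apply]
  rw [e3] at hk2
  have hp : 0 ≤ S.dl 1 k := (S.dl_pos 1 k).le
  have h2 : ∀ s ∈ (Φ j).support.attach, |rnd (S.dl 1 k) (cu Φ k ω j s) * (s.1 a : ℝ) *
      (∏ i, (TR.ev (y i) k ω) ^ (s.1 - Finsupp.single a 1 : Fin e →₀ ℕ) i) - cu Φ k ω j s * (s.1 a : ℝ) *
      ∏ i, (TR.ev (y i) k ω) ^ (s.1 - Finsupp.single a 1 : Fin e →₀ ℕ) i| ≤ (g * (L k + 1) ^ g) * S.dl 1 k := by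
    intro s _
    have hsg : s.1.sum (fun _ n => n) ≤ g := (MvPolynomial.le_totalDegree s.2).trans (hd j)
    rw [Finsupp.sum_fintype _ _ (fun _ => rfl)] at hsg
    have hsa : (s.1 a : ℝ) ≤ g := by
      have h3 : s.1 a ≤ ∑ i, s.1 i := Finset.single_le_sum (fun i _ => Nat.zero_le _) (Finset.mem_univ a)
      exact_mod_cast h3.trans hsg
    have e4 : rnd (S.dl 1 k) (cu Φ k ω j s) * (s.1 a : ℝ) *
        (∏ i, (TR.ev (y i) k ω) ^ (s.1 - Finsupp.single a 1 : Fin e →₀ ℕ) i) - cu Φ k ω j s * (s.1 a : ℝ) *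
        (∏ i, (TR.ev (y i) k ω) ^ (s.1 - Finsupp.single a 1 : Fin e →₀ ℕ) i) =
        (s.1 a : ℝ) * (∏ i, (TR.ev (y i) k ω) ^ (s.1 - Finsupp.single a 1 : Fin e →₀ ℕ) i) *
          (rnd (S.dl 1 k) (cu Φ k ω j s) - cu Φ k ω j s) := by ring
    rw [e4, abs_mul]
    apply mul_le_mul
    · rw [abs_mul, Finset.abs_prod, Nat.abs_cast]
      apply mul_le_mul hsa _ (by positivity) (Nat.cast_nonneg _)
      calc ∏ i, |(TR.ev (y i) k ω) ^ (s.1 - Finsupp.single a 1 : Fin e →₀ ℕ) i|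
          ≤ ∏ i, (L k + 1) ^ (s.1 - Finsupp.single a 1 : Fin e →₀ ℕ) i := by
            apply Finset.prod_le_prod (fun i _ => abs_nonneg _)
            intro i _
            rw [abs_pow]
            apply pow_le_pow_left₀ (abs_nonneg _)
            have := h1 ω hω i
            exact le_trans this (by linarith)
        _ = (L k + 1) ^ (∑ i, (s.1 - Finsupp.single a 1 : Fin e →₀ ℕ) i) := Finset.prod_pow_eq_pow_sum _ _ _
        _ ≤ (L k + 1) ^ g := by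
            apply pow_le_pow_right₀ (by linarith)
            refine le_trans (Finset.sum_le_sum fun i _ => ?_) hsg
            rw [Finsupp.tsub_apply]
            exact Nat.sub_le _ _
    · rw [abs_sub_comm]
      exact rnd_le (S.dl_pos 1 k) _
    · exact abs_nonneg _
    · have : 0 ≤ L k + 1 := by linarith
      positivity
  have h3 : |(∑ s ∈ (Φ j).support.attach, rnd (S.dl 1 k) (cu Φ k ω j s) * (s.1 a : ℝ) *
      (∏ i, (TR.ev (y i) k ω) ^ (s.1 - Finsupp.single a 1 : Fin e →₀ ℕ) i)) -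
      ∑ s ∈ (Φ j).support.attach, cu Φ k ω j s * (s.1 a : ℝ) *
        ∏ i, (TR.ev (y i) k ω) ^ (s.1 - Finsupp.single a 1 : Fin e →₀ ℕ) i| ≤
        (Φ j).support.attach.card * (g * (L k + 1) ^ g) * S.dl 1 k := by
    rw [← Finset.sum_sub_distrib]
    refine (Finset.abs_sum_le_sum_abs _ _).trans ((Finset.sum_le_sum h2).trans (le_of_eq ?_))
    rw [Finset.sum_const, nsmul_eq_mul]
    ring
  have e5 : MvPolynomial.eval ((TR.vec y).v k ω) (MvPolynomial.pderiv a (lG Φ k ω j)) =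
      ∑ s ∈ (Φ j).support.attach, rnd (S.dl 1 k) (cu Φ k ω j s) * (s.1 a : ℝ) *
        ∏ i, (TR.ev (y i) k ω) ^ (s.1 - Finsupp.single a 1 : Fin e →₀ ℕ) i := by
    rw [eval_pderiv_lG]
    rfl
  rw [e5, add_mul]
  have h4 := abs_sub_le (∑ s ∈ (Φ j).support.attach, rnd (S.dl 1 k) (cu Φ k ω j s) * (s.1 a : ℝ) *
      (∏ i, (TR.ev (y i) k ω) ^ (s.1 - Finsupp.single a 1 : Fin e →₀ ℕ) i))
      (∑ s ∈ (Φ j).support.attach, cu Φ k ω j s * (s.1 a : ℝ) *
        ∏ i, (TR.ev (y i) k ω) ^ (s.1 - Finsupp.single a 1 : Fin e →₀ ℕ) i) (TR.ev f k ω)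
  rw [abs_sub_comm (∑ s ∈ (Φ j).support.attach, cu Φ k ω j s * (s.1 a : ℝ) *
        ∏ i, (TR.ev (y i) k ω) ^ (s.1 - Finsupp.single a 1 : Fin e →₀ ℕ) i) (TR.ev f k ω)] at h4
  exact h4.trans (add_le_add h3 hk2)

end

/-- A POLYNOMIAL LEAF OF THE EXACT CALCULUS IS A LEAF, WITH TANGENTS. The leaf of `exists_leaf` of Helper81/AD/Pl.lean;
(i) a coordinate which is constant on the leaf (`Phi j = C c`) has no tangents, everywhere; (ii) the tangents are, on a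
typical event and up to the finest resolution, the values at `Y` of the derivatives. -/
theorem exists_leaf_der (Q : S.VV M) (W : S.L) (Y : Fin e → QS S) (Φ : Fin M → MvPolynomial (Fin e) (QS S))
    (hΦ : ∀ j, Φ j ∈ QS.PK W) (hY : QS.Rl Y W) (hQ : ∀ j, QS.mk (TR.cor Q j) = MvPolynomial.eval Y (Φ j)) {g : ℕ}
    (hg : 1 ≤ g) (he : e ≤ g) (hd : ∀ j, (Φ j).totalDegree ≤ g) :
    ∃ (l : Leaf S Q (lin g)) (hle : e = l.e), (PLe (pof l.La) (rp W) ∧ PLe (rp W) (pof l.La)) ∧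
      (∀ c : ℝ, c ≤ 1 → PLe (l.win c) (rp (W ⊔ QS.vd Y c)) ∧ PLe (rp (W ⊔ QS.vd Y c)) (l.win c)) ∧
      (∀ (j : Fin M) (c : QS S), Φ j = MvPolynomial.C c → ∀ k ω a, ltan l k ω a j = 0) ∧
      ∀ (a : Fin e) (j : Fin M) (f : TR S), QS.mk f = MvPolynomial.eval Y (MvPolynomial.pderiv a (Φ j)) →
        ∃ (A : ∀ k, (S.F k).Ω → Prop) (K : ℕ → ℝ), Typ A ∧ S.Sub K ∧ ∀ᶠ k in UF, ∀ ω, (S.F k).μ ω ≠ 0 → A k ω →
          |ltan l k ω (Fin.cast hle a) j - TR.ev f k ω| ≤ K k * S.dl 1 k := by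
  set y : Fin e → TR S := fun i => QS.rep (Y i) with hy
  have hyY : (fun i => QS.mk (y i)) = Y := funext fun i => QS.mk_rep (Y i)
  have hfull : Tendsto (fun k => h (fc (Setoid.ker ((TR.vec y).cellv 1 k))) (fc ((pI Φ W).1 k)) / (S.F k).n) UF
      (𝓝 (e : ℝ)) := by
    have h1 : UB (S.rt ((TR.vec y).bdd 1).toInf.1 (pI Φ W).1) := UB_rt _ _
    have h2 := ul_tendsto h1
    have h3 : ul (S.rt ((TR.vec y).bdd 1).toInf.1 (pI Φ W).1) = e := by
      rw [← h_cl, cl_pI Φ hΦ]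
      have e1 : cl ((TR.vec y).bdd 1).toInf = (TR.vec y).dg 1 := (io_eq ((TR.vec y).bdd 1)).symm
      rw [e1, ← vd_mk y le_rfl, hyY]
      have h4 : h (QS.vd Y 1) W = Fintype.card (Fin e) := hY
      rw [h4, Fintype.card_fin]
    rw [h3] at h2
    refine h2.congr fun k => ?_
    rw [h_fc]
    rfl
  set l0 : Leaf S (lQ' Φ (TR.vec y) hd) (lin g) := Leaf.ofPoly g hg e he (pI Φ W).1 (TR.vec y) (fun k ω => lG Φ k ω)
    (fun k ω i => lG_deg Φ hd k ω i) (Eventually.of_forall fun k ω ω' _ _ _ r => lG_fn Φ k ω ω' r.2) (lG_bd Φ)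
    ⟨fun _ => 0, S.Sub_const le_rfl, Eventually.of_forall fun k ω _ i => by
      show |MvPolynomial.eval _ _ - MvPolynomial.eval _ _| ≤ _
      rw [sub_self, abs_zero, zero_mul]⟩ hfull with hl0
  have hag : ∀ j, TR.Ag 1 (TR.cor Q j) (TR.cor (lQ' Φ (TR.vec y) hd) j) := by
    intro j
    rw [← QS.mk_eq, hQ j, lQ'_eq, hyY]
  choose A K hA hK hh using hag
  have hTy := Typ_all A hA
  have hE : ∀ D, D ≤ Pool.Agent.Helper84.MT.lin g D := by
    intro D
    unfold Pool.Agent.Helper84.MT.lin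
    nlinarith
  have hQ' : ∃ K : ℕ → ℝ, S.Sub K ∧ ∀ᶠ k in UF, ∀ ω, (S.F k).μ ω ≠ 0 → (∀ j, A j k ω) → ∀ i,
      |Q.v k ω i - (lQ' Φ (TR.vec y) hd).v k ω i| ≤ K k * S.dl 1 k := by
    have hS : ∀ s : Finset (Fin M), S.Sub (fun k => ∑ i ∈ s, K i k) := by
      intro s
      induction s using Finset.induction_on with
      | empty => simpa using S.Sub_const le_rfl
      | insert a s ha ih =>
        have h1 := (hK a).add ih
        simpa [Finset.sum_insert ha] using h1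
    refine ⟨fun k => ∑ i, K i k, hS Finset.univ, ?_⟩
    have h1 : ∀ᶠ k in UF, ∀ i ∈ (Finset.univ : Finset (Fin M)), 0 ≤ K i k ∧ ∀ ω, (S.F k).μ ω ≠ 0 → A i k ω →
        |TR.ev (TR.cor Q i) k ω - TR.ev (TR.cor (lQ' Φ (TR.vec y) hd) i) k ω| ≤ K i k * S.dl 1 k := by
      rw [Filter.eventually_all_finset]
      intro i _
      exact (hK i).1.and (hh i)
    filter_upwards [h1] with k hk ω hω hAk i
    refine ((hk i (Finset.mem_univ i)).2 ω hω (hAk i)).trans ?_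
    apply mul_le_mul_of_nonneg_right _ (S.dl_pos 1 k).le
    exact Finset.single_le_sum (f := fun i => K i k) (fun j _ => (hk j (Finset.mem_univ j)).1) (Finset.mem_univ i)
  have hV : S.VB l0.La := (pI Φ W).2
  have hcW : ∀ {X : S.Inf}, PLe (rpI X) (rp (cl X)) ∧ PLe (rp (cl X)) (rpI X) := fun {X} => ⟨(rp_rpI X).2, (rp_rpI X).1⟩
  have hder : ∀ k ω (a : Fin e) (j : Fin M), ltan l0 k ω a j =
      MvPolynomial.eval ((TR.vec y).v k ω) (MvPolynomial.pderiv a (lG Φ k ω j)) := fun k ω a j =>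
    (hasDerivAt_pderiv a (lG Φ k ω j) ((TR.vec y).v k ω)).deriv
  refine ⟨l0.toQ hTy hE hQ', rfl, ⟨?_, ?_⟩, fun c hc => ?_, fun j c hj k ω a => ?_, fun a j f hf => ?_⟩
  · refine (toQ_La_le l0 hTy hE hQ').trans ?_
    have h1 := (hcW (X := pI Φ W)).1
    rw [cl_pI Φ hΦ] at h1
    exact h1
  · refine PLe.trans ?_ (toQ_La_ge l0 hTy hE hQ' hV)
    have h1 := (hcW (X := pI Φ W)).2
    rw [cl_pI Φ hΦ] at h1
    exact h1
  · have e1 : cl (Inf.sup (pI Φ W) ((TR.vec y).bdd c).toInf) = W ⊔ QS.vd Y c := by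
      rw [cl_sup, cl_pI Φ hΦ]
      have e2 : cl ((TR.vec y).bdd c).toInf = (TR.vec y).dg c := (io_eq ((TR.vec y).bdd c)).symm
      rw [e2, ← vd_mk y hc, hyY]
    have h1 := hcW (X := Inf.sup (pI Φ W) ((TR.vec y).bdd c).toInf)
    rw [e1] at h1
    exact ⟨(toQ_win_le l0 hTy hE hQ' c).trans h1.1, PLe.trans h1.2 (toQ_win_ge l0 hTy hE hQ' c hV)⟩
  · by_cases hω : ∀ j, A j k ω
    · have h1 : ltan (l0.toQ hTy hE hQ') k ω a j = ltan l0 k ω a j := ltan_toQ l0 hTy hE hQ' hω a j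
      exact h1.trans ((hder k ω a j).trans (eval_pderiv_lG_C Φ hj k ω a _))
    · exact ltan_toQ_neg l0 hTy hE hQ' hω a j
  · obtain ⟨B, L, hB, hL, hb⟩ := pderiv_Ag Φ y hd j a f (by rw [hf, hyY])
    refine ⟨fun k ω => (∀ j, A j k ω) ∧ B k ω, L, hTy.and hB, hL, ?_⟩
    filter_upwards [hb] with k hk ω hω hAB
    have h1 : ltan (l0.toQ hTy hE hQ') k ω a j = ltan l0 k ω a j := ltan_toQ l0 hTy hE hQ' hAB.1 a j
    have h2 := hk ω hω hAB.2
    rw [← hder, ← h1] at h2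
    exact h2

end

end Pool.Agent.Helper97.GR
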